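import Pool.Agent.H56.ER2.Targets
import Pool.Agent.H48.ER.Lib

/-!
# MP_816b90_co: rows SGA and SGB: the first and the last neighbour of `v` in a segment are adjacent
-/

set_option autoImplicit false

namespace Pool.Agent.H7.ER2

open Pool.Agent.H48.ER Pool.Agent.H52.ER2 Pool.Agent.H66.ER2 Pool.Agent.H56.ER2

variable {V : Type} {G : SimpleGraph V}

theorem seg_ip {n : ℕ} {g : ℕ → V} (h : PF G n g) {i j : ℕ} (hij : i ≤ j) (hj : j ≤ n) :
    IP G (j - i) (g i) (g j) (seg g i j) := by
  refine ⟨fun k => g (i + k), by simp, ?_, ?_, ?_, ?_⟩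
  · show g (i + (j - i)) = g j
    congr 1; omega
  · intro a b ha hb e
    have := h.inj _ _ (by omega) (by omega) e
    omega
  · intro a b ha hb
    show G.Adj (g (i + a)) (g (i + b)) ↔ _
    rw [h.adj _ _ (by omega) (by omega)]
    omega
  · ext v; constructor
    · rintro ⟨k, h1, h2, rfl⟩
      exact ⟨k - i, by omega, by show g (i + (k - i)) = g k; congr 1; omega⟩
    · rintro ⟨k, h1, rfl⟩
      exact ⟨i + k, by omega, by omega, rfl⟩

/-- the part of the closed segment on the side of `g k` -/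
theorem sgm_right {n m : ℕ} {z g : ℕ → V} {i k l : ℕ} {s t : V} {T : Set V} (hg : PF G m g)
    (h : Sgm G n z g i k l s t T) (hk : k ≤ m) {e : ℕ} (he : i < e) (hek : e ≤ k) :
    Disjoint T (seg g e k) ∧ XE G T (seg g e k) t (g k) := by
  constructor
  · rw [Set.disjoint_left]
    rintro w hw ⟨j, h1, h2, rfl⟩
    exact h.out j (by omega) h2 (h.sub hw)
  · rintro w hw _ ⟨j, h1, h2, rfl⟩
    by_cases hjk : j = k
    · subst hjk
      rw [SimpleGraph.adj_comm, h.rt w hw]
      constructor
      · intro e; exact ⟨e, rfl⟩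
      · intro e; exact e.1
    · constructor
      · intro e
        exact absurd e.symm (h.no j (by omega) (by omega) w (h.sub hw))
      · rintro ⟨_, e⟩
        exact absurd (hg.inj j k (by omega) hk e) hjk

theorem pf_SGA (hPPR : T_PPR) (hCNI : T_CNI) (hCNU : T_CNU) : T_SGA := by
  intro V G v n z m g i k l s t T c hS hF hQ hT hi hkm hic hck hvc hvc' hlo hhi
  have hpf := hQ.pf
  have hsW : s ∈ Wz n z := hT.sub hT.ip.left_mem
  -- the path
  obtain ⟨dTB, xTB⟩ := sgm_right hpf hT (by omega) (e := c + 2) (by omega) (by omega)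
  have pA : IP G (c - 1 - i) (g (c - 1)) (g i) (seg g i (c - 1)) :=
    (seg_ip hpf (by omega) (by omega)).rev
  have pB : IP G (k - (c + 2)) (g k) (g (c + 2)) (seg g (c + 2) k) :=
    (seg_ip hpf (by omega) (by omega)).rev
  have dAT : Disjoint (seg g i (c - 1)) T := by
    rw [Set.disjoint_left]
    rintro _ ⟨j, h1, h2, rfl⟩ hw
    exact hT.out j h1 (by omega) (hT.sub hw)
  have xAT : XE G (seg g i (c - 1)) T (g i) s := by
    rintro _ ⟨j, h1, h2, rfl⟩ w hw
    by_cases hji : j = i
    · subst hji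
      rw [hT.ls w hw]
      constructor
      · intro e; exact ⟨rfl, e⟩
      · intro e; exact e.2
    · constructor
      · intro e
        exact absurd e (hT.no j (by omega) (by omega) w (hT.sub hw))
      · rintro ⟨e, _⟩
        exact absurd (hpf.inj j i (by omega) (by omega) e) hji
  have pAT := pA.append hT.ip dAT xAT
  have pR : IP G (c - 1 - i + l + 1 + (k - (c + 2)) + 1) (g (c - 1)) (g (c + 2))
      (seg g i (c - 1) ∪ T ∪ seg g (c + 2) k) := by
    refine pAT.append pB ?_ ?_
    · rw [Set.disjoint_left]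
      rintro w (⟨j, h1, h2, rfl⟩ | hw) ⟨j', h3, h4, e⟩
      · have := hpf.inj j' j (by omega) (by omega) e
        omega
      · exact Set.disjoint_left.mp dTB hw ⟨j', h3, h4, e⟩
    · rintro w (⟨j, h1, h2, rfl⟩ | hw) b ⟨j', h3, h4, rfl⟩
      · rw [hpf.adj j j' (by omega) (by omega)]
        constructor
        · intro e; omega
        · rintro ⟨e, _⟩
          exact absurd (e ▸ hT.sub hT.ip.right_mem) (hT.out j h1 (by omega))
      · exact xTB w hw _ ⟨j', h3, h4, rfl⟩
  have hmem : ∀ w ∈ seg g i (c - 1) ∪ T ∪ seg g (c + 2) k,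
      (∃ j, i ≤ j ∧ j ≤ k ∧ j ≠ c ∧ j ≠ c + 1 ∧ g j = w) ∨ w ∈ T := by
    rintro w ((⟨j, h1, h2, rfl⟩ | hw) | ⟨j, h1, h2, rfl⟩)
    · exact Or.inl ⟨j, h1, by omega, by omega, by omega, rfl⟩
    · exact Or.inr hw
    · exact Or.inl ⟨j, by omega, h2, by omega, by omega, rfl⟩
  have hnotR : ∀ x, x = c ∨ x = c + 1 → g x ∉ seg g i (c - 1) ∪ T ∪ seg g (c + 2) k := by
    intro x hx hw
    rcases hmem _ hw with ⟨j, h1, h2, h3, h4, e⟩ | hw
    · have := hpf.inj j x (by omega) (by omega) e
      omega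
    · exact hT.out x (by omega) (by omega) (hT.sub hw)
  have hadjR : ∀ x y, (x = c ∧ y = c - 1) ∨ (x = c + 1 ∧ y = c + 2) →
      ∀ w ∈ seg g i (c - 1) ∪ T ∪ seg g (c + 2) k, G.Adj (g x) w ↔ w = g y := by
    intro x y hxy w hw
    rcases hmem _ hw with ⟨j, h1, h2, h3, h4, rfl⟩ | hw
    · rw [hpf.adj x j (by omega) (by omega)]
      constructor
      · intro e
        have : j = y := by omega
        rw [this]
      · intro e
        have := hpf.inj j y (by omega) (by omega) e
        omega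
    · constructor
      · intro e
        exact absurd e (hT.no x (by omega) (by omega) w (hT.sub hw))
      · intro e
        exact absurd (e ▸ hT.sub hw) (hT.out y (by omega) (by omega))
  have hg0 := hQ.inA
  have hn4 := hF.four
  have hz := hS.so.pf
  -- the connected set
  have hWz : Wz n z = seg z 1 (n - 1) := by
    ext w; constructor
    · rintro ⟨j, h1, h2, rfl⟩; exact ⟨j, by omega, by omega, rfl⟩
    · rintro ⟨j, h1, h2, rfl⟩; exact ⟨j, by omega, by omega, rfl⟩
  have hcW : Cn G (Wz n z) := by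
    rw [hWz]
    exact hCNI V G _ _ _ _ (seg_ip hz (by omega) (by omega))
  have hc0 : Cn G ({g 0} : Set V) := hCNI V G _ _ _ _ (IP.zero (g 0))
  have hcD : Cn G ({g 0} ∪ Wz n z) := hCNU V G _ _ hc0 hcW
    ⟨g 0, rfl, z 1, ⟨1, by omega, by omega, rfl⟩, Or.inr hg0.2.1⟩
  obtain ⟨a, b, n', P, hP, ha, _⟩ := hPPR V G v (g c) (g (c + 1)) (g (c - 1)) (g (c + 2)) _ _
    ({g 0} ∪ Wz n z) hS.cls.noh pR (by omega) (hnotR c (Or.inl rfl)) (hnotR _ (Or.inr rfl))
    ((hpf.adj c (c + 1) (by omega) (by omega)).mpr (Or.inl rfl))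
    (hadjR c (c - 1) (Or.inl ⟨rfl, rfl⟩)) (hadjR (c + 1) (c + 2) (Or.inr ⟨rfl, rfl⟩))
    (by
      intro hw
      rcases hmem _ hw with ⟨j, h1, h2, h3, h4, e⟩ | hw
      · exact hQ.nv j (by omega) e
      · exact (hF.vw v (hT.sub hw)).1 rfl)
    hvc hvc'
    (by
      intro w hw
      rcases hmem _ hw with ⟨j, h1, h2, h3, h4, rfl⟩ | hw
      · rcases Nat.lt_or_ge j c with h | h
        · exact hlo j h1 h
        · exact hhi j (by omega) h2
      · exact (hF.vw w (hT.sub hw)).2)
    hcD
    (by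
      rintro (e | hw)
      · exact hQ.nv 0 (by omega) (Set.mem_singleton_iff.mp e).symm
      · exact (hF.vw v hw).1 rfl)
    (by
      rintro (e | hw)
      · have := hpf.inj c 0 (by omega) (by omega) (Set.mem_singleton_iff.mp e)
        omega
      · exact hT.out c (by omega) (by omega) hw)
    (by
      rintro (e | hw)
      · have := hpf.inj (c + 1) 0 (by omega) (by omega) (Set.mem_singleton_iff.mp e)
        omega
      · exact hT.out (c + 1) (by omega) (by omega) hw)
    (by
      rintro w (e | hw)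
      · rw [Set.mem_singleton_iff.mp e, hpf.adj 0 c (by omega) (by omega),
          hpf.adj 0 (c + 1) (by omega) (by omega)]
        omega
      · exact ⟨fun e => hT.no c (by omega) (by omega) w hw e.symm,
          fun e => hT.no (c + 1) (by omega) (by omega) w hw e.symm⟩)
    ⟨g 0, Or.inl rfl, hg0.1⟩
    ⟨s, Or.inr hsW, Or.inl (Or.inl (Or.inr hT.ip.left_mem))⟩
  exact (hS.nco a b n' P hP 0).1 ha.symm

theorem pf_SGB (hPPR : T_PPR) (hCNI : T_CNI) (hCNU : T_CNU) : T_SGB := by
  intro V G v n z m g k l s t T hS hF hQ hT hkm hv1 hhi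
  have hpf := hQ.pf
  have hn4 := hF.four
  have hz := hS.so.pf
  have hk2 := hT.ik
  have hm3 := hQ.three
  obtain ⟨hg0v, hg0z, hg0n⟩ := hQ.inA
  obtain ⟨hgmv, hgmz, _⟩ := hQ.inB
  have hsW : s ∈ Wz n z := hT.sub hT.ip.left_mem
  have hsz : s = z 1 := by
    obtain ⟨j, h1, h2, e⟩ := hsW
    have hadj : G.Adj (g 0) s := (hT.ls s hT.ip.left_mem).mpr rfl
    by_cases hj : 1 < j
    · rw [← e] at hadj
      exact absurd hadj (hg0n j hj h2)
    · have : j = 1 := by omega
      rw [← e, this]
  obtain ⟨dTB, xTB⟩ := sgm_right hpf hT (by omega) (e := 2) (by omega) (by omega)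
  have pB : IP G (k - 2) (g k) (g 2) (seg g 2 k) := (seg_ip hpf (by omega) (by omega)).rev
  have pR : IP G (l + (k - 2) + 1) s (g 2) (T ∪ seg g 2 k) := hT.ip.append pB dTB xTB
  have hcW : Cn G (seg z 2 (n - 1)) := hCNI V G _ _ _ _ (seg_ip hz (by omega) (by omega))
  have hc0 : Cn G ({g m} : Set V) := hCNI V G _ _ _ _ (IP.zero (g m))
  have hcD : Cn G ({g m} ∪ seg z 2 (n - 1)) := hCNU V G _ _ hc0 hcW
    ⟨g m, rfl, z (n - 1), ⟨n - 1, by omega, by omega, rfl⟩, Or.inr hgmz⟩
  have hW : ∀ w ∈ seg z 2 (n - 1), w ∈ Wz n z := by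
    rintro w ⟨j, h1, h2, rfl⟩
    exact ⟨j, by omega, by omega, rfl⟩
  obtain ⟨a, b, n', P, hP, ha, _⟩ := hPPR V G v (g 0) (g 1) s (g 2) _ _
    ({g m} ∪ seg z 2 (n - 1)) hS.cls.noh pR (by omega)
    (by
      rintro (hw | ⟨j, h1, h2, e⟩)
      · exact hT.out 0 (by omega) (by omega) (hT.sub hw)
      · have := hpf.inj j 0 (by omega) (by omega) e
        omega)
    (by
      rintro (hw | ⟨j, h1, h2, e⟩)
      · exact hT.out 1 (by omega) (by omega) (hT.sub hw)
      · have := hpf.inj j 1 (by omega) (by omega) e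
        omega)
    ((hpf.adj 0 1 (by omega) (by omega)).mpr (Or.inl rfl))
    (by
      rintro w (hw | ⟨j, h1, h2, rfl⟩)
      · exact hT.ls w hw
      · rw [hpf.adj 0 j (by omega) (by omega)]
        constructor
        · intro e; omega
        · intro e
          exact absurd (e ▸ hsW) (hT.out j (by omega) h2))
    (by
      rintro w (hw | ⟨j, h1, h2, rfl⟩)
      · constructor
        · intro e
          exact absurd e (hT.no 1 (by omega) (by omega) w (hT.sub hw))
        · intro e
          exact absurd (e ▸ hT.sub hw) (hT.out 2 (by omega) (by omega))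
      · rw [hpf.adj 1 j (by omega) (by omega)]
        constructor
        · intro e
          have : j = 2 := by omega
          rw [this]
        · intro e
          have := hpf.inj j 2 (by omega) (by omega) e
          omega)
    (by
      rintro (hw | ⟨j, h1, h2, e⟩)
      · exact (hF.vw v (hT.sub hw)).1 rfl
      · exact hQ.nv j (by omega) e)
    hg0v hv1
    (by
      rintro w (hw | ⟨j, h1, h2, rfl⟩)
      · exact (hF.vw w (hT.sub hw)).2
      · exact hhi j (by omega) h2)
    hcD
    (by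
      rintro (e | hw)
      · exact hQ.nv m (by omega) (Set.mem_singleton_iff.mp e).symm
      · exact (hF.vw v (hW v hw)).1 rfl)
    (by
      rintro (e | hw)
      · have := hpf.inj 0 m (by omega) (by omega) (Set.mem_singleton_iff.mp e)
        omega
      · exact hT.out 0 (by omega) (by omega) (hW _ hw))
    (by
      rintro (e | hw)
      · have := hpf.inj 1 m (by omega) (by omega) (Set.mem_singleton_iff.mp e)
        omega
      · exact hT.out 1 (by omega) (by omega) (hW _ hw))
    (by
      rintro w (e | hw)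
      · rw [Set.mem_singleton_iff.mp e, hpf.adj m 0 (by omega) (by omega),
          hpf.adj m 1 (by omega) (by omega)]
        omega
      · refine ⟨fun e => ?_, fun e => hT.no 1 (by omega) (by omega) w (hW w hw) e.symm⟩
        obtain ⟨j, h1, h2, rfl⟩ := hw
        exact hg0n j (by omega) (by omega) e.symm)
    ⟨g m, Or.inl rfl, hgmv⟩
    ⟨z 2, Or.inr ⟨2, by omega, by omega, rfl⟩, Or.inr ⟨s, Or.inl hT.ip.left_mem, by
      rw [hsz]
      exact (hz.adj 2 1 (by omega) (by omega)).mpr (Or.inr rfl)⟩⟩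
  exact (hS.nco a b n' P hP 0).1 ha.symm

end Pool.Agent.H7.ER2
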