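import Pool.Agent.H48.ER2.Top

/-!
# MP_816b90_co: row DUC: if all neighbourhoods are cliques then every nonadjacent pair is good
-/

set_option autoImplicit false

namespace Pool.Agent.H7.ER2

open Pool.Agent.H48.ER Pool.Agent.H52.ER2 Pool.Agent.H66.ER2 Pool.Agent.H48.ER2

theorem duc_evp {V : Type} (G : SimpleGraph V) (x y : V)
    (hN : ∀ u, Clq G {w | G.Adj u w}) (hxy : x ≠ y) (hn : ¬ G.Adj x y) : EvP G x y := by
  refine ⟨hxy, hn, ?_⟩
  rintro n R ⟨g, h0, hgn, hi, ha, _⟩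
  rcases n with _ | _ | n
  · exact absurd (h0.symm.trans hgn) hxy
  · exfalso
    apply hn
    have := (ha 0 1 (by omega) (by omega)).mpr (Or.inl rfl)
    rw [h0] at this
    have e : g 1 = y := hgn
    rw [e] at this
    exact this
  · exfalso
    have h1 : G.Adj (g 1) (g 0) := (ha 1 0 (by omega) (by omega)).mpr (Or.inr rfl)
    have h2 : G.Adj (g 1) (g 2) := (ha 1 2 (by omega) (by omega)).mpr (Or.inl rfl)
    have h3 : g 0 ≠ g 2 := fun e => by
      have := hi 0 2 (by omega) (by omega) e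
      omega
    have h4 := hN (g 1) (g 0) h1 (g 2) h2 h3
    have h5 := (ha 0 2 (by omega) (by omega)).mp h4
    omega

theorem duc_nb {V : Type} (G : SimpleGraph V) (x y : V)
    (hN : ∀ u, Clq G {w | G.Adj u w}) (hxy : x ≠ y) (z u w : V) (hz : z ≠ x)
    (hu : (ctr G x y).Adj z u) (hw : (ctr G x y).Adj z w) (huw : u ≠ w) :
    (ctr G x y).Adj u w := by
  obtain ⟨_, _, hu3, hu4⟩ := hu
  obtain ⟨_, _, hw3, hw4⟩ := hw
  have hu5 : G.Adj z u ∨ (u = x ∧ G.Adj z y) := by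
    rcases hu4 with h | ⟨h, _⟩ | h
    · exact Or.inl h
    · exact absurd h hz
    · exact Or.inr h
  have hw5 : G.Adj z w ∨ (w = x ∧ G.Adj z y) := by
    rcases hw4 with h | ⟨h, _⟩ | h
    · exact Or.inl h
    · exact absurd h hz
    · exact Or.inr h
  rcases hu5 with h | ⟨rfl, h⟩
  · rcases hw5 with h' | ⟨rfl, h'⟩
    · exact ⟨huw, hu3, hw3, Or.inl (hN z u h w h' huw)⟩
    · exact ⟨huw, hu3, hw3, Or.inr (Or.inr ⟨rfl, hN z u h y h' hu3⟩)⟩
  · rcases hw5 with h' | ⟨rfl, h'⟩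
    · exact ⟨huw, hu3, hw3, Or.inr (Or.inl ⟨rfl, hN z y h w h' (Ne.symm hw3)⟩)⟩
    · exact absurd rfl huw

theorem duc_nop {V : Type} (G : SimpleGraph V) (x y : V)
    (hN : ∀ u, Clq G {w | G.Adj u w}) (hxy : x ≠ y) : NOP (ctr G x y) := by
  intro a b n P hP _
  have hinj : ∀ i j, i ≠ j → a i ≠ a j := by
    intro i j hij e
    exact Set.disjoint_left.mp (hP.dis i j hij) (hP.ip i).left_mem (e ▸ (hP.ip j).left_mem)
  obtain ⟨i, j, hij, hi⟩ : ∃ i j : Fin 3, i ≠ j ∧ a i ≠ x := by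
    by_cases h : a 0 = x
    · exact ⟨1, 0, by decide, fun e => hinj 0 1 (by decide) (h.trans e.symm)⟩
    · exact ⟨0, 1, by decide, h⟩
  obtain ⟨g, g0, gn, gi, ga, gR⟩ := hP.ip i
  have hpos := hP.pos i
  have hr : g 1 ∈ P i := by
    rw [gR]
    exact ⟨1, hpos, rfl⟩
  have h1 : (ctr G x y).Adj (a i) (g 1) := by
    have := (ga 0 1 (by omega) hpos).mpr (Or.inl rfl)
    rw [g0] at this
    exact this
  have h2 : (ctr G x y).Adj (a i) (a j) :=
    (hP.adj i j hij _ (hP.ip i).left_mem _ (hP.ip j).left_mem).mpr (Or.inl ⟨rfl, rfl⟩)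
  have h3 : g 1 ≠ a j := fun e =>
    Set.disjoint_left.mp (hP.dis i j hij) hr (e ▸ (hP.ip j).left_mem)
  have h4 := duc_nb G x y hN hxy (a i) (g 1) (a j) hi h1 h2 h3
  rcases (hP.adj i j hij _ hr _ (hP.ip j).left_mem).mp h4 with ⟨e, _⟩ | ⟨_, e⟩
  · have := gi 1 0 hpos (by omega) (e.trans g0.symm)
    omega
  · obtain ⟨k, k0, km, ki, _, _⟩ := hP.ip j
    have hj := hP.pos j
    have := ki 0 (n j) (by omega) le_rfl (k0.trans (e.trans km.symm))
    omega

theorem pf_DUC (hCC : T_CC) : T_DUC := by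
  intro V G x y hG hN hxy hn
  have h1 := duc_evp G x y hN hxy hn
  exact ⟨h1, hCC V G x y hG h1 (duc_nop G x y hN hxy)⟩

end Pool.Agent.H7.ER2
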